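import Mathlib

set_option autoImplicit false
set_option linter.unusedSimpArgs false
set_option linter.unnecessarySeqFocus false
set_option maxHeartbeats 1000000

/-!
# Equilateral heptagons with all angles equal to sixty degrees

For every `c > 0` the space `M(c,c)` of 2-equilateral heptagons in `ℝ³` with parameters `(c,c)`,
up to rigid motions and dihedral relabelings, is path connected, and `(c,c)` is admissible.

Step 1 (`exists_coincidence`).  In every such heptagon two vertices `xᵢ`, `xᵢ₊₃` coincide.  Suppose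
not.  Let `δᵢ = |xᵢ - xᵢ₊₃|²`, let `mᵢ` be twice the oriented volume determinant of
`xᵢ, xᵢ₊₁, xᵢ₊₂, xᵢ₊₃`, and let `cᵢ = mᵢ/δᵢ` (the cotangent of half of a hinge angle).  The closing
conditions give the two systems of relations in `no_real_cycle`.  The first system leaves
`J = H/K` invariant, the second one forces `J² + 6 = 0` or further relations
that are incompatible with the first system.  So there is no real solution.

Step 2 (`classify`).  If `x₀ = x₃` is the origin and `x₄, x₅, x₆` are normalised, the vertices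
`x₁, x₂` run over three explicit circles which meet.
-/

namespace Pool.Agent.Results.MP_3c8ca4_co.PathConnected

/-- Quartic form of the invariant pencil. -/
def H (x y : ℝ) : ℝ := -4*x^2*y^2 + 2*x^2 + 2*y^2 - 3*x*y + 2
/-- Cubic form of the invariant pencil. -/
def K (x y : ℝ) : ℝ := (x+y)*(2*x*y+1)

lemma opp {a b u J : ℝ} (hab : H a b = J * K a b) (Kab : K a b ≠ 0)
    (Du : 3*(1+2*a*b)*(1+u^2) = (2-u^2)*(1+a^2)*(1+b^2)) :
    u^2*((J*(a+b)+3*a*b)+6) = 2*((J*(a+b)+3*a*b)-3) := by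
  have hp : (2*a*b+1) ≠ 0 := by
    intro h; apply Kab; unfold K; rw [h, mul_zero]
  have h0 : (2*a*b+1) * (u^2*((J*(a+b)+3*a*b)+6) - 2*((J*(a+b)+3*a*b)-3)) = 0 := by
    unfold H K at hab
    linear_combination (2:ℝ)*Du + (2-u^2)*hab
  rcases mul_eq_zero.mp h0 with h | h
  · exact absurd h hp
  · linarith

lemma vieta {a b c J : ℝ} (hb : b^2 ≠ 2)
    (hA : 2+b^2+2*b*(a+c)+2*a*c*(b^2-1) = 0)
    (hab : H a b = J * K a b) (hbc : H b c = J * K b c) :
    (2-4*b^2-2*J*b)*(a+c) = 3*b+J*(2*b^2+1) ∧ (2-4*b^2-2*J*b)*(a*c) = 2*b^2+2-J*b := by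
  unfold H K at hab hbc
  have h1 : (2-4*b^2-2*J*b)*(a+c) = 3*b+J*(2*b^2+1) := by
    by_cases hac : a = c
    · subst hac
      have e : ((2-4*b^2-2*J*b)*(a+a) - (3*b+J*(2*b^2+1))) * (b+a*(b^2-1)) = 0 := by
        linear_combination ((2-4*b^2-2*J*b)/2)*hA + (b^2-1)*hab
      rcases mul_eq_zero.mp e with h | h
      · linarith
      · exfalso
        apply hb
        have h2 : 2+b^2+2*a*b = 0 := by linear_combination hA - 2*a*h
        have h3 : (b^2-2)*(b^2+1) = 0 := by linear_combination (b^2 - 1)*h2 - 2*b*h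
        rcases mul_eq_zero.mp h3 with h4 | h4
        · linarith
        · nlinarith [sq_nonneg b]
    · have e : (a-c)*((2-4*b^2-2*J*b)*(a+c) - (3*b+J*(2*b^2+1))) = 0 := by
        linear_combination hab - hbc
      rcases mul_eq_zero.mp e with h | h
      · exact absurd (by linarith) hac
      · linarith
  refine ⟨h1, ?_⟩
  linear_combination a*h1 - hab

/-- Core elimination, in terms of the two symmetric functions. -/
lemma core {b u v J L1 L2 L3 Dl : ℝ} (hb : b^2 ≠ 2)
    (hDl : Dl = 2-4*b^2-2*J*b)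
    (hSL : Dl*(L1+L2) = -2*J*b^3 - 2*J^2*b^2 + 10*J*b + J^2 + 9*b^2)
    (hPL : Dl*(L1*L2) = 2*J^2*b^4 + 12*J*b^3 + 4*J^2*b^2 + 18*b^4 + 12*J*b + 2*J^2 + 18*b^2)
    (hu : u^2*(L1+6) = 2*(L1-3)) (hv : v^2*(L2+6) = 2*(L2-3))
    (hw : b^2*(L3+6) = 2*(L3-3)) (hL3 : L3 = J*(u+v)+3*u*v)
    (Db : 3*(1+2*u*v)*(1+b^2) = (2-b^2)*(1+u^2)*(1+v^2)) :
    4*J*(5*J^2-9)*b+(J^2-3)*(J^2-18) = 0 := by
  have hb2 : b^2-2 ≠ 0 := fun h => hb (by linarith)
  have hb1 : b^2+1 ≠ 0 := by nlinarith [sq_nonneg b]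
  have hR : (2*J^2+18) ≠ 0 := by nlinarith [sq_nonneg J]
  have hJ6 : J^2+6 ≠ 0 := by nlinarith [sq_nonneg J]
  have hJ9 : J^2+9 ≠ 0 := by nlinarith [sq_nonneg J]
  have hW : Dl*((L1+6)*(L2+6)) = (b^2-2)^2*(2*J^2+18) := by
    linear_combination hPL + 6*hSL + 36*hDl
  have hN2 : Dl*(4*((L1-3)*(L2-3))) = 8*J^2*b^4 + 72*J*b^3 + 40*J^2*b^2 + 72*b^4 - 144*J*b
      - 4*J^2 - 180*b^2 + 72 := by
    linear_combination 4*hPL - 12*hSL + 36*hDl
  have huv2 : (u*v)^2*((b^2-2)^2*(2*J^2+18)) = 8*J^2*b^4 + 72*J*b^3 + 40*J^2*b^2 + 72*b^4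
      - 144*J*b - 4*J^2 - 180*b^2 + 72 := by
    rw [← hW, ← hN2]
    linear_combination Dl*v^2*(L2+6)*hu + Dl*2*(L1-3)*hv
  have h9 : (1+u^2)*(1+v^2)*((L1+6)*(L2+6)) = 9*(L1*L2) := by
    linear_combination (1+v^2)*(L2+6)*hu + 3*L1*hv
  have he1 : (1+2*u*v)*(1+b^2)*((L1+6)*(L2+6)) = 3*(2-b^2)*(L1*L2) := by
    linear_combination ((L1+6)*(L2+6)/3)*Db + ((2-b^2)/3)*h9
  have he2 : (u*v)*(b^2-2)*(2*J^2+18) = -(4*J^2*b^2+18*J*b+J^2+36*b^2-18) := by
    have h : (b^2+1)*(b^2-2)*((u*v)*(b^2-2)*(2*J^2+18)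
        + (4*J^2*b^2+18*J*b+J^2+36*b^2-18)) = 0 := by
      linear_combination (Dl/2)*he1 - ((1+2*u*v)*(1+b^2)/2)*hW + (3*(2-b^2)/2)*hPL
    rcases mul_eq_zero.mp h with h | h
    · exact absurd h (mul_ne_zero hb1 hb2)
    · linarith
  have F1 : -8*J^2*b^2+36*J*b+J^2+36*b^2-18 = 0 := by
    have h : 9*(J^2+6)*(-8*J^2*b^2+36*J*b+J^2+36*b^2-18) = 0 := by
      linear_combination (2*J^2+18)*huv2 - ((u*v)*(b^2-2)*(2*J^2+18) - (4*J^2*b^2+18*J*b+J^2+36*b^2-18))*he2
    rcases mul_eq_zero.mp h with h | h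
    · exact absurd h (mul_ne_zero (by norm_num) hJ6)
    · exact h
  have hN3 : (u^2+v^2)*((b^2-2)^2*(2*J^2+18)) = 4*(2*J^2*b^4 + 12*J*b^3 + 4*J^2*b^2 + 18*b^4
      + 12*J*b + 2*J^2 + 18*b^2) + 6*(-2*J*b^3 - 2*J^2*b^2 + 10*J*b + J^2 + 9*b^2)
      - 72*(2-4*b^2-2*J*b) := by
    rw [← hW]
    linear_combination Dl*(L2+6)*hu + Dl*(L1+6)*hv + 4*hPL + 6*hSL - 72*hDl
  have hw' : L3*(2-b^2) = 6*(1+b^2) := by linear_combination -hw
  have hX : 6*(1+b^2)*(2*J^2+18) - 3*(4*J^2*b^2+18*J*b+J^2+36*b^2-18)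
      = (2*J^2+18)*(2-b^2)*(J*(u+v)) := by
    linear_combination -(2*J^2+18)*hw' - 3*he2 + (2*J^2+18)*(2-b^2)*hL3
  have hXsq : (6*(1+b^2)*(2*J^2+18) - 3*(4*J^2*b^2+18*J*b+J^2+36*b^2-18))^2
      = (2*J^2+18)^2*(2-b^2)^2*(J^2*(u+v)^2) := by
    rw [hX]; ring
  have F2 : 4*J^4*b^2+144*J^2*b^2+72*J^3*b+4*J^4+324*J*b-45*J^2-486 = 0 := by
    have h : 9*(J^2+6)*(4*J^4*b^2+144*J^2*b^2+72*J^3*b+4*J^4+324*J*b-45*J^2-486) = 0 := by
      linear_combination -hXsq - J^2*(2*J^2+18)*hN3 - 2*J^2*(b^2-2)*(2*J^2+18)*he2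
    rcases mul_eq_zero.mp h with h | h
    · exact absurd h (mul_ne_zero (by norm_num) hJ6)
    · exact h
  have h : 36*(J^2+9)*(4*J*(5*J^2-9)*b+(J^2-3)*(J^2-18)) = 0 := by
    linear_combination (4*J^4+144*J^2)*F1 - (36-8*J^2)*F2
  rcases mul_eq_zero.mp h with h | h
  · exact absurd h (mul_ne_zero (by norm_num) hJ9)
  · exact h

lemma localRel {a b c u v J : ℝ} (hb : b^2 ≠ 2)
    (hA : 2+b^2+2*b*(a+c)+2*a*c*(b^2-1) = 0)
    (hab : H a b = J * K a b) (hbc : H b c = J * K b c) (huv : H u v = J * K u v)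
    (Kab : K a b ≠ 0) (Kbc : K b c ≠ 0) (Kuv : K u v ≠ 0)
    (Du : 3*(1+2*a*b)*(1+u^2) = (2-u^2)*(1+a^2)*(1+b^2))
    (Dv : 3*(1+2*b*c)*(1+v^2) = (2-v^2)*(1+b^2)*(1+c^2))
    (Db : 3*(1+2*u*v)*(1+b^2) = (2-b^2)*(1+u^2)*(1+v^2)) :
    4*J*(5*J^2-9)*b+(J^2-3)*(J^2-18) = 0 := by
  have hu := opp hab Kab Du
  have hv := opp hbc Kbc Dv
  have hw := opp huv Kuv Db
  obtain ⟨hS, hQ⟩ := vieta hb hA hab hbc
  refine core (L1 := J*(a+b)+3*a*b) (L2 := J*(b+c)+3*b*c) (L3 := J*(u+v)+3*u*v) hb rfl ?_ ?_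
    hu hv hw rfl Db
  · linear_combination (J+3*b)*hS
  · linear_combination (J^2*b+3*J*b^2)*hS + (J^2+6*J*b+9*b^2)*hQ

/-- There is no real seven-periodic solution of the two systems of relations. -/
lemma no_real_cycle (c : ZMod 7 → ℝ)
    (hA : ∀ j, 2 + c j^2 + 2*c j*(c (j-1) + c (j+1)) + 2*c (j-1)*c (j+1)*(c j^2-1) = 0)
    (hD : ∀ j, 3*(1+2*c j*c (j+1))*(1+c (j+4)^2) = (2-c (j+4)^2)*(1+c j^2)*(1+c (j+1)^2)) :
    False := by
  have z7 : (7 : ZMod 7) = 0 := rfl
  have s1 : ∀ j, c j^2 ≠ 2 := by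
    intro j hj
    have h : (c (j-1) + c j)*(c (j+1) + c j) = 0 := by
      have := hA j
      linear_combination (1/2)*this + (1/2 - c (j-1)*c (j+1))*hj
    rcases mul_eq_zero.mp h with h | h
    · have e := hD (j-1)
      have e1 : j - 1 + 1 = j := by ring
      rw [e1] at e
      have h1 : c (j-1) = - c j := by linarith
      rw [h1] at e
      have : (27:ℝ) = 0 := by
        linear_combination (-1)*e - (6*(1+c (j-1+4)^2) + (2-c (j-1+4)^2)*(c j^2+4))*hj
      norm_num at this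
    · have e := hD j
      have h1 : c (j+1) = - c j := by linarith
      rw [h1] at e
      have : (27:ℝ) = 0 := by
        linear_combination (-1)*e - (6*(1+c (j+4)^2) + (2-c (j+4)^2)*(c j^2+4))*hj
      norm_num at this
  have inv : ∀ j, H (c (j-1)) (c j) * K (c j) (c (j+1)) = H (c j) (c (j+1)) * K (c (j-1)) (c j) := by
    intro j
    unfold H K
    linear_combination (-(4*(c j)^2+1)*(c (j-1) - c (j+1)))*(hA j)
  -- `2xy+1` never vanishes
  have s2 : ∀ j, 2*c j*c (j+1)+1 ≠ 0 := by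
    intro j hj
    have e := hD j
    have h : (2-c (j+4)^2)*((1+c j^2)*(1+c (j+1)^2)) = 0 := by
      linear_combination (-1)*e + 3*(1+c (j+4)^2)*hj
    rcases mul_eq_zero.mp h with h | h
    · exact s1 (j+4) (by linarith)
    · have : 0 < (1+c j^2)*(1+c (j+1)^2) := by positivity
      linarith
  have s3 : ∀ j, K (c j) (c (j+1)) ≠ 0 := by
    intro j0 h0
    have step : ∀ j, K (c j) (c (j+1)) = 0 → K (c (j+1)) (c (j+1+1)) = 0 := by
      intro j hj
      have hs : c j + c (j+1) = 0 := by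
        unfold K at hj
        rcases mul_eq_zero.mp hj with h | h
        · exact h
        · exact absurd h (s2 j)
      have hH : H (c j) (c (j+1)) ≠ 0 := by
        have h1 : c (j+1) = - c j := by linarith
        rw [h1]; unfold H
        intro h
        have h2 : (c j^2 - 2)*(4*c j^2+1) = 0 := by linear_combination -h
        rcases mul_eq_zero.mp h2 with h3 | h3
        · exact s1 j (by linarith)
        · nlinarith [sq_nonneg (c j)]
      have e := inv (j+1)
      have e1 : j + 1 - 1 = j := by ring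
      rw [e1, hj, mul_zero] at e
      rcases mul_eq_zero.mp e with h | h
      · exact absurd h hH
      · exact h
    have all : ∀ j, K (c j) (c (j+1)) = 0 := by
      have h1 := step _ h0
      have h2 := step _ h1
      have h3 := step _ h2
      have h4 := step _ h3
      have h5 := step _ h4
      have h6 := step _ h5
      have key : ∀ d : ZMod 7, d = 0 ∨ d = 1 ∨ d = 1+1 ∨ d = 1+1+1 ∨ d = 1+1+1+1 ∨ d = 1+1+1+1+1 ∨
        d = 1+1+1+1+1+1 := by decide
      intro j
      rcases key (j - j0) with h | h | h | h | h | h | h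
      · have : j = j0 := by linear_combination h
        rw [this]; exact h0
      · have : j = j0 + 1 := by linear_combination h
        rw [this]; exact h1
      · have : j = j0 + 1 + 1 := by linear_combination h
        rw [this]; exact h2
      · have : j = j0 + 1 + 1 + 1 := by linear_combination h
        rw [this]; exact h3
      · have : j = j0 + 1 + 1 + 1 + 1 := by linear_combination h
        rw [this]; exact h4
      · have : j = j0 + 1 + 1 + 1 + 1 + 1 := by linear_combination h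
        rw [this]; exact h5
      · have : j = j0 + 1 + 1 + 1 + 1 + 1 + 1 := by linear_combination h
        rw [this]; exact h6
    have neg : ∀ j, c (j+1) = - c j := by
      intro j
      have hj := all j
      unfold K at hj
      rcases mul_eq_zero.mp hj with h | h
      · linarith
      · exact absurd h (s2 j)
    have e0 : c 0 = 0 := by
      have h1 := neg 0
      have h2 := neg 1
      have h3 := neg 2
      have h4 := neg 3
      have h5 := neg 4
      have h6 := neg 5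
      have h7 := neg 6
      have t1 : (0:ZMod 7)+1 = 1 := rfl
      have t2 : (1:ZMod 7)+1 = 2 := rfl
      have t3 : (2:ZMod 7)+1 = 3 := rfl
      have t4 : (3:ZMod 7)+1 = 4 := rfl
      have t5 : (4:ZMod 7)+1 = 5 := rfl
      have t6 : (5:ZMod 7)+1 = 6 := rfl
      have t7 : (6:ZMod 7)+1 = 0 := rfl
      rw [t1] at h1; rw [t2] at h2; rw [t3] at h3; rw [t4] at h4; rw [t5] at h5; rw [t6] at h6
      rw [t7] at h7
      linarith
    have e1 := hA 0
    have e2 := neg 0
    have e3 := neg (0-1)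
    rw [sub_add_cancel] at e3
    rw [e0] at e1
    have e4 : c (0-1) = 0 := by linarith
    rw [e4] at e1
    norm_num at e1
  -- the invariant
  obtain ⟨J, hJ⟩ : ∃ J, ∀ j, H (c j) (c (j+1)) = J * K (c j) (c (j+1)) := by
    refine ⟨H (c 0) (c (0+1)) / K (c 0) (c (0+1)), ?_⟩
    set J := H (c 0) (c (0+1)) / K (c 0) (c (0+1)) with hJd
    have base : H (c 0) (c (0+1)) = J * K (c 0) (c (0+1)) := by
      rw [hJd, div_mul_cancel₀ _ (s3 0)]
    have step : ∀ j, H (c j) (c (j+1)) = J * K (c j) (c (j+1)) →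
        H (c (j+1)) (c (j+1+1)) = J * K (c (j+1)) (c (j+1+1)) := by
      intro j hj
      have e := inv (j+1)
      have e1 : j + 1 - 1 = j := by ring
      rw [e1, hj] at e
      have hk := s3 j
      have : K (c j) (c (j+1)) * (H (c (j+1)) (c (j+1+1)) - J * K (c (j+1)) (c (j+1+1))) = 0 := by
        linear_combination -e
      rcases mul_eq_zero.mp this with h | h
      · exact absurd h hk
      · linarith
    have h1 := step _ base
    have h2 := step _ h1
    have h3 := step _ h2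
    have h4 := step _ h3
    have h5 := step _ h4
    have h6 := step _ h5
    have key : ∀ d : ZMod 7, d = 0 ∨ d = 0+1 ∨ d = 0+1+1 ∨ d = 0+1+1+1 ∨ d = 0+1+1+1+1 ∨
      d = 0+1+1+1+1+1 ∨ d = 0+1+1+1+1+1+1 := by decide
    intro j
    rcases key j with h | h | h | h | h | h | h <;> rw [h] <;> assumption
  have fin : ∀ j, 4*J*(5*J^2-9)*c j+(J^2-3)*(J^2-18) = 0 := by
    intro j
    have e1 : j - 1 + 1 = j := by ring
    have e2 : j + 3 + 1 = j + 4 := by ring
    have e3 : j - 1 + 4 = j + 3 := by ring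
    have e4 : j + 3 + 4 = j := by linear_combination z7
    have hab := hJ (j-1)
    rw [e1] at hab
    have hbc := hJ j
    have huv := hJ (j+3)
    rw [e2] at huv
    have Kab := s3 (j-1)
    rw [e1] at Kab
    have Kbc := s3 j
    have Kuv := s3 (j+3)
    rw [e2] at Kuv
    have Du := hD (j-1)
    rw [e1, e3] at Du
    have Dv := hD j
    have Db := hD (j+3)
    rw [e2, e4] at Db
    exact localRel (s1 j) (hA j) hab hbc huv Kab Kbc Kuv Du Dv Db
  by_cases hz : 4*J*(5*J^2-9) = 0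
  · have h0 := fin 0
    rw [hz, zero_mul, zero_add] at h0
    rcases mul_eq_zero.mp hz with h | h
    · have : J = 0 := by linarith
      rw [this] at h0; norm_num at h0
    · have h5 : J^2 = 9/5 := by linarith
      rw [h5] at h0; norm_num at h0
  · have eq : ∀ i j, c i = c j := by
      intro i j
      have hi := fin i
      have hj := fin j
      have : 4*J*(5*J^2-9)*(c i - c j) = 0 := by linear_combination hi - hj
      rcases mul_eq_zero.mp this with h | h
      · exact absurd h hz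
      · linarith
    have e := hA 0
    rw [eq (0-1) 0, eq (0+1) 0] at e
    nlinarith [sq_nonneg (c 0), sq_nonneg (c 0^2)]


/-- Euclidean three-space. -/
abbrev E3 := EuclideanSpace ℝ (Fin 3)

def sqd (p q : E3) : ℝ := (p 0 - q 0)^2 + (p 1 - q 1)^2 + (p 2 - q 2)^2

def dt (u v : Fin 3 → ℝ) : ℝ := u 0 * v 0 + u 1 * v 1 + u 2 * v 2

def dd (u v w : Fin 3 → ℝ) : ℝ :=
  u 0 * (v 1 * w 2 - v 2 * w 1) - u 1 * (v 0 * w 2 - v 2 * w 0) + u 2 * (v 0 * w 1 - v 1 * w 0)

/-- difference vector -/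
def df (p o : E3) : Fin 3 → ℝ := fun k => p k - o k

/-- Twice the oriented volume determinant of four points. -/
def vl (p q r s : E3) : ℝ := 2 * dd (df q p) (df r p) (df s p)

lemma dt_df (p q o : E3) : dt (df p o) (df q o) = (sqd p o + sqd q o - sqd p q)/2 := by
  simp only [dt, df, sqd]; ring

lemma sqd_symm (p q : E3) : sqd p q = sqd q p := by simp only [sqd]; ring

lemma gram3 (u v w a b c : Fin 3 → ℝ) : dd u v w * dd a b c =
    dt u a * (dt v b * dt w c - dt v c * dt w b) - dt u b * (dt v a * dt w c - dt v c * dt w a)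
    + dt u c * (dt v a * dt w b - dt v b * dt w a) := by
  simp only [dt, dd]; ring

lemma id1 (a b p v : Fin 3 → ℝ) : (dt a a * dt b b - dt a b ^ 2) * dt p v =
    (dt p a * dt b b - dt p b * dt a b) * dt a v + (dt p b * dt a a - dt p a * dt a b) * dt b v
    + dd p a b * dd v a b := by
  simp only [dt, dd]; ring

lemma id3 (a b c v : Fin 3 → ℝ) : (dt a a * dt c c - dt a c ^ 2) * dd v a b =
    (dt v c * dt a a - dt v a * dt a c) * dd c a b
    + dd v a c * (dt a a * dt b c - dt a b * dt a c) := by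
  simp only [dt, dd]; ring

lemma G4 {p0 p1 p2 p3 : E3} (h01 : sqd p0 p1 = 1) (h12 : sqd p1 p2 = 1) (h23 : sqd p2 p3 = 1)
    (h02 : sqd p0 p2 = 1) (h13 : sqd p1 p3 = 1) :
    (vl p0 p1 p2 p3)^2 = sqd p0 p3 * (3 - sqd p0 p3) := by
  have g := gram3 (df p1 p0) (df p2 p0) (df p3 p0) (df p1 p0) (df p2 p0) (df p3 p0)
  simp only [dt_df] at g
  rw [sqd_symm p1 p0, sqd_symm p2 p0, sqd_symm p3 p0, sqd_symm p2 p1, sqd_symm p3 p1,
    sqd_symm p3 p2, h01, h12, h23, h02, h13] at g
  have z : ∀ p : E3, sqd p p = 0 := fun p => by simp [sqd]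
  simp only [z] at g
  simp only [vl]
  linear_combination 4*g

lemma G5 {p0 p1 p2 p3 p4 : E3} (h01 : sqd p0 p1 = 1) (h12 : sqd p1 p2 = 1) (h23 : sqd p2 p3 = 1)
    (h34 : sqd p3 p4 = 1) (h02 : sqd p0 p2 = 1) (h13 : sqd p1 p3 = 1) (h24 : sqd p2 p4 = 1) :
    3*(sqd p0 p4 - 1) = sqd p0 p3 * sqd p1 p4 + 2 * (vl p0 p1 p2 p3 * vl p1 p2 p3 p4) := by
  have g := gram3 (df p0 p2) (df p1 p2) (df p3 p2) (df p1 p2) (df p3 p2) (df p4 p2)
  have e1 : vl p0 p1 p2 p3 = 2 * dd (df p0 p2) (df p1 p2) (df p3 p2) := by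
    simp only [vl, dd, df]; ring
  have e2 : vl p1 p2 p3 p4 = -2 * dd (df p1 p2) (df p3 p2) (df p4 p2) := by
    simp only [vl, dd, df]; ring
  simp only [dt_df] at g
  have z : ∀ p : E3, sqd p p = 0 := fun p => by simp [sqd]
  rw [sqd_symm p3 p2, sqd_symm p4 p2, sqd_symm p3 p1, h01, h12, h23, h34, h02, h13, h24] at g
  simp only [z] at g
  rw [e1, e2]
  linear_combination 8*g

lemma G6 {p0 p1 p2 p3 p4 p5 : E3} (h01 : sqd p0 p1 = 1) (h12 : sqd p1 p2 = 1)
    (h23 : sqd p2 p3 = 1) (h34 : sqd p3 p4 = 1) (h45 : sqd p4 p5 = 1)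
    (h02 : sqd p0 p2 = 1) (h13 : sqd p1 p3 = 1) (h24 : sqd p2 p4 = 1) (h35 : sqd p3 p5 = 1)
    (h05 : sqd p0 p5 = 1) :
    sqd p0 p3 * sqd p2 p5 * (3 + sqd p1 p4)
    + 2 * vl p1 p2 p3 p4 * (sqd p2 p5 * vl p0 p1 p2 p3 + sqd p0 p3 * vl p2 p3 p4 p5)
    + 2 * vl p0 p1 p2 p3 * vl p2 p3 p4 p5 * (3 - 2 * sqd p1 p4) = 0 := by
  -- base point p2 : p = p0, b = p1, a = p3, c = p4, v = p5
  have i1 := id1 (df p3 p2) (df p1 p2) (df p0 p2) (df p5 p2)
  have i2 := id1 (df p3 p2) (df p4 p2) (df p5 p2) (df p1 p2)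
  have i3 := id3 (df p3 p2) (df p1 p2) (df p4 p2) (df p5 p2)
  have e0 : vl p0 p1 p2 p3 = -2 * dd (df p0 p2) (df p3 p2) (df p1 p2) := by
    simp only [vl, dd, df]; ring
  have e1 : vl p1 p2 p3 p4 = -2 * dd (df p1 p2) (df p3 p2) (df p4 p2) := by
    simp only [vl, dd, df]; ring
  have e1' : dd (df p4 p2) (df p3 p2) (df p1 p2) = - dd (df p1 p2) (df p3 p2) (df p4 p2) := by
    simp only [dd, df]; ring
  have e2 : vl p2 p3 p4 p5 = 2 * dd (df p5 p2) (df p3 p2) (df p4 p2) := by
    simp only [vl, dd, df]; ring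
  have z : ∀ p : E3, sqd p p = 0 := fun p => by simp [sqd]
  simp only [dt_df] at i1 i2 i3
  rw [sqd_symm p3 p2, sqd_symm p5 p2, sqd_symm p3 p1] at i1
  rw [sqd_symm p3 p2, sqd_symm p5 p2, sqd_symm p4 p2, sqd_symm p5 p3, sqd_symm p5 p4,
    sqd_symm p3 p1, sqd_symm p4 p1, sqd_symm p5 p1] at i2
  rw [sqd_symm p3 p2, sqd_symm p5 p2, sqd_symm p4 p2, sqd_symm p5 p3, sqd_symm p5 p4,
    sqd_symm p3 p1, e1'] at i3
  simp only [z, h01, h12, h23, h34, h45, h02, h13, h24, h35, h05] at i1 i2 i3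
  rw [e0, e1, e2]
  set X := dd (df p0 p2) (df p3 p2) (df p1 p2)
  set Y := dd (df p1 p2) (df p3 p2) (df p4 p2)
  set Z := dd (df p5 p2) (df p3 p2) (df p4 p2)
  set W := dd (df p5 p2) (df p3 p2) (df p1 p2)
  linear_combination 24*i1 + 8*(sqd p0 p3)*i2 + 32*X*i3


lemma z_add (j : ZMod 7) : j + 4 + 2 = j - 1 := by
  have z7 : (7 : ZMod 7) = 0 := rfl
  linear_combination z7

lemma z_add' (j : ZMod 7) : j + 4 + 3 = j := by
  have z7 : (7 : ZMod 7) = 0 := rfl
  linear_combination z7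

/-- Unit distances at cyclic distance one and two force two points at cyclic distance three to
coincide. -/
lemma exists_coincidence (x : ZMod 7 → E3) (h1 : ∀ i, sqd (x i) (x (i+1)) = 1)
    (h2 : ∀ i, sqd (x i) (x (i+2)) = 1) : ∃ i, sqd (x i) (x (i+3)) = 0 := by
  by_contra hne
  push Not at hne
  set δ : ZMod 7 → ℝ := fun i => sqd (x i) (x (i+3)) with hδ
  set m : ZMod 7 → ℝ := fun i => vl (x i) (x (i+1)) (x (i+2)) (x (i+3)) with hm
  have hne' : ∀ i, δ i ≠ 0 := hne
  have a12 : ∀ j : ZMod 7, j + 1 + 1 = j + 2 := fun j => by ring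
  have a13 : ∀ j : ZMod 7, j + 1 + 2 = j + 3 := fun j => by ring
  have a14 : ∀ j : ZMod 7, j + 1 + 3 = j + 4 := fun j => by ring
  have a23 : ∀ j : ZMod 7, j + 2 + 1 = j + 3 := fun j => by ring
  have a24 : ∀ j : ZMod 7, j + 2 + 2 = j + 4 := fun j => by ring
  have a25 : ∀ j : ZMod 7, j + 2 + 3 = j + 5 := fun j => by ring
  have a34 : ∀ j : ZMod 7, j + 3 + 1 = j + 4 := fun j => by ring
  have a35 : ∀ j : ZMod 7, j + 3 + 2 = j + 5 := fun j => by ring
  have a45 : ∀ j : ZMod 7, j + 4 + 1 = j + 5 := fun j => by ring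
  have q4 : ∀ i, (m i)^2 = δ i * (3 - δ i) := by
    intro i
    have e1 := h1 (i+1); rw [a12] at e1
    have e2 := h1 (i+2); rw [a23] at e2
    have e3 := h2 (i+1); rw [a13] at e3
    exact G4 (h1 i) e1 e2 (h2 i) e3
  have q5 : ∀ i, 3*(δ (i+4) - 1) = δ i * δ (i+1) + 2 * (m i * m (i+1)) := by
    intro i
    have e1 := h1 (i+1); rw [a12] at e1
    have e2 := h1 (i+2); rw [a23] at e2
    have e2' := h1 (i+3); rw [a34] at e2'
    have e3 := h2 (i+1); rw [a13] at e3
    have e4 := h2 (i+2); rw [a24] at e4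
    have g := G5 (h1 i) e1 e2 e2' (h2 i) e3 e4
    simp only [hδ, hm, a12, a13, a14, z_add']
    rw [sqd_symm (x (i+4)) (x i)]
    exact g
  have q6 : ∀ i, δ i * δ (i+2) * (3 + δ (i+1)) + 2 * m (i+1) * (δ (i+2) * m i + δ i * m (i+2))
      + 2 * m i * m (i+2) * (3 - 2 * δ (i+1)) = 0 := by
    intro i
    have e1 := h1 (i+1); rw [a12] at e1
    have e2 := h1 (i+2); rw [a23] at e2
    have e3 := h1 (i+3); rw [a34] at e3
    have e4 := h1 (i+4); rw [a45] at e4
    have f1 := h2 (i+1); rw [a13] at f1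
    have f2 := h2 (i+2); rw [a24] at f2
    have f3 := h2 (i+3); rw [a35] at f3
    have f5 := h2 (i+5)
    have z5 : i + 5 + 2 = i := by
      have z7 : (7 : ZMod 7) = 0 := rfl
      linear_combination z7
    rw [z5, sqd_symm] at f5
    have g := G6 (h1 i) e1 e2 e3 e4 (h2 i) f1 f2 f3 f5
    simp only [hδ, hm, a12, a13, a14, a23, a24, a25]
    exact g
  set c : ZMod 7 → ℝ := fun i => m i / δ i with hc
  have hm' : ∀ i, m i = c i * δ i := fun i => by rw [hc]; simp only; rw [div_mul_cancel₀ _ (hne' i)]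
  have hd : ∀ i, δ i * (1 + (c i)^2) = 3 := by
    intro i
    have e := q4 i
    rw [hm' i] at e
    have : δ i * (δ i * (1 + (c i)^2) - 3) = 0 := by linear_combination e
    rcases mul_eq_zero.mp this with h | h
    · exact absurd h (hne' i)
    · linarith
  refine no_real_cycle c ?_ ?_
  · intro j
    have e := q6 (j-1)
    have b1 : j - 1 + 1 = j := by ring
    have b2 : j - 1 + 2 = j + 1 := by ring
    rw [b1, b2, hm' j, hm' (j-1), hm' (j+1)] at e
    have e2 : δ (j-1) * δ (j+1) * ((3 + δ j) + 2 * c j * δ j * (c (j-1) + c (j+1))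
        + 2 * c (j-1) * c (j+1) * (3 - 2 * δ j)) = 0 := by linear_combination e
    have e3 : (3 + δ j) + 2 * c j * δ j * (c (j-1) + c (j+1))
        + 2 * c (j-1) * c (j+1) * (3 - 2 * δ j) = 0 := by
      rcases mul_eq_zero.mp e2 with h | h
      · rcases mul_eq_zero.mp h with h | h
        · exact absurd h (hne' _)
        · exact absurd h (hne' _)
      · exact h
    have d := hd j
    linear_combination ((1 + c j^2)/3) * e3 - ((1 + 2*c j*(c (j-1)+c (j+1)) - 4*c (j-1)*c (j+1))/3)*d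
  · intro j
    have e := q5 j
    rw [hm' j, hm' (j+1)] at e
    have d0 := hd j
    have d1 := hd (j+1)
    have d4 := hd (j+4)
    set A := 1 + c j^2
    set B := 1 + c (j+1)^2
    set C := 1 + c (j+4)^2 with hC
    have e' : 3*(δ (j+4) - 1) = δ j * δ (j+1) * (1 + 2 * c j * c (j+1)) := by linear_combination e
    have e2 : 3*(3 - C)*(A*B) = 9*(1 + 2 * c j * c (j+1))*C := by
      linear_combination (A*B*C)*e' - 3*A*B*d4 + (δ (j+1)*B*C*(1 + 2 * c j * c (j+1)))*d0
        + (3*C*(1 + 2 * c j * c (j+1)))*d1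
    have e3 : c (j+4)^2 = C - 1 := by rw [hC]; ring
    rw [e3]
    linear_combination (-1/3)*e2

/-! ### The configuration space -/

lemma dist_sq (p q : E3) : dist p q ^ 2 = sqd p q := by
  rw [EuclideanSpace.dist_eq, Real.sq_sqrt (by positivity), Fin.sum_univ_three]
  simp only [Real.dist_eq, sq_abs, sqd]

lemma dist_one_iff (p q : E3) : dist p q = 1 ↔ sqd p q = 1 := by
  rw [← dist_sq]
  constructor
  · intro h; rw [h]; norm_num
  · intro h
    have h0 : 0 ≤ dist p q := dist_nonneg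
    nlinarith

/-- The space `X(c₁,c₂)` of 2-equilateral heptagons `[x₀,…,x₆]` in `ℝ³` (indices mod 7), a subset
of `(ℝ³)⁷` with the subspace topology. -/
def X (c₁ c₂ : ℝ) : Set (ZMod 7 → E3) :=
  {x | ∀ i, dist (x i) (x (i + 1)) = c₁ ∧ dist (x i) (x (i + 2)) = c₂}

/-- `Move x y`: the heptagon `y` is the image of the heptagon `x` under one of the generators of
the group `G`: an orientation-preserving isometry `p ↦ A p + b` with `A ∈ SO(3)`, or one of the
two relabelings `xᵢ ↦ xᵢ₊₁`, `xᵢ ↦ x₋ᵢ`. -/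
inductive Move {c₁ c₂ : ℝ} (x y : X c₁ c₂) : Prop
  | rigid (A : Matrix (Fin 3) (Fin 3) ℝ) (hA : A ∈ Matrix.specialOrthogonalGroup (Fin 3) ℝ)
      (b : E3) (h : ∀ i, y.1 i = Matrix.toEuclideanLin A (x.1 i) + b)
  | shift (h : ∀ i, y.1 i = x.1 (i + 1))
  | reverse (h : ∀ i, y.1 i = x.1 (-i))

/-- The quotient space `M(c₁,c₂) = X(c₁,c₂)/G`: heptagons are identified if they are related by
the equivalence relation generated by the moves. -/
def M (c₁ c₂ : ℝ) : Type := Quot (Move (c₁ := c₁) (c₂ := c₂))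

/-- `M(c₁,c₂)` carries the quotient topology. -/
instance instTopologicalSpaceM (c₁ c₂ : ℝ) : TopologicalSpace (M c₁ c₂) :=
  inferInstanceAs (TopologicalSpace (Quot _))

/-- The pair `(c₁,c₂)` of positive numbers is admissible: there is a skew (not coplanar)
2-equilateral heptagon with these parameters. -/
def Admissible (c₁ c₂ : ℝ) : Prop :=
  0 < c₁ ∧ 0 < c₂ ∧ ∃ x ∈ X c₁ c₂, ¬ Coplanar ℝ (Set.range x)

def frameMat (a b : Fin 3 → ℝ) : Matrix (Fin 3) (Fin 3) ℝ :=
  !![a 0, a 1, a 2; b 0, b 1, b 2;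
    a 1 * b 2 - a 2 * b 1, a 2 * b 0 - a 0 * b 2, a 0 * b 1 - a 1 * b 0]

lemma frameMat_mem {a b : Fin 3 → ℝ} (ha : dt a a = 1) (hb : dt b b = 1) (hab : dt a b = 0) :
    frameMat a b ∈ Matrix.specialOrthogonalGroup (Fin 3) ℝ := by
  have hc : (a 1 * b 2 - a 2 * b 1)^2 + (a 2 * b 0 - a 0 * b 2)^2 + (a 0 * b 1 - a 1 * b 0)^2 = 1 := by
    simp only [dt] at ha hb hab
    linear_combination (b 0*b 0+b 1*b 1+b 2*b 2)*ha + hb - (a 0 * b 0 + a 1 * b 1 + a 2 * b 2)*hab
  rw [Matrix.mem_specialOrthogonalGroup_iff, Matrix.mem_orthogonalGroup_iff]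
  constructor
  · simp only [dt] at ha hb hab
    ext i j
    fin_cases i <;> fin_cases j <;>
      simp [frameMat, Matrix.mul_apply, Fin.sum_univ_three, Matrix.star_apply]
    · linear_combination ha
    · linear_combination hab
    · ring
    · linear_combination hab
    · linear_combination hb
    · ring
    · ring
    · ring
    · linear_combination hc
  · rw [frameMat, Matrix.det_fin_three]
    simp
    linear_combination hc

lemma dist_rigid {A : Matrix (Fin 3) (Fin 3) ℝ} (hA : A ∈ Matrix.specialOrthogonalGroup (Fin 3) ℝ)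
    (b p q : E3) :
    dist (Matrix.toEuclideanLin A p + b) (Matrix.toEuclideanLin A q + b) = dist p q := by
  rw [Matrix.mem_specialOrthogonalGroup_iff, Matrix.mem_orthogonalGroup_iff'] at hA
  have h := hA.1
  have e : ∀ i j, ∑ k, A k i * A k j = (1 : Matrix (Fin 3) (Fin 3) ℝ) i j := by
    intro i j
    have := congrFun (congrFun h i) j
    simpa [Matrix.mul_apply, Matrix.star_apply] using this
  have e00 := e 0 0
  have e01 := e 0 1
  have e02 := e 0 2
  have e11 := e 1 1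
  have e12 := e 1 2
  have e22 := e 2 2
  simp [Fin.sum_univ_three] at e00 e01 e02 e11 e12 e22
  have hs : sqd (Matrix.toEuclideanLin A p + b) (Matrix.toEuclideanLin A q + b) = sqd p q := by
    simp [sqd, Matrix.toLpLin_apply, Matrix.mulVec, dotProduct, Fin.sum_univ_three]
    linear_combination (p 0 - q 0)^2*e00 + (p 1 - q 1)^2*e11 + (p 2 - q 2)^2*e22
      + 2*(p 0 - q 0)*(p 1 - q 1)*e01 + 2*(p 0 - q 0)*(p 2 - q 2)*e02 + 2*(p 1 - q 1)*(p 2 - q 2)*e12
  rw [← dist_sq, ← dist_sq] at hs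
  exact (sq_eq_sq₀ dist_nonneg dist_nonneg).mp hs

noncomputable section


def P4 : E3 := !₂[1, 0, 0]
def P5 : E3 := !₂[1/2, √3/6, √6/3]
def P6 : E3 := !₂[1/2, √3/2, 0]

def conf (p q : E3) : ZMod 7 → E3 := (![0, p, q, 0, P4, P5, P6] : Fin 7 → E3)

lemma conf_mem (p q : E3) (hp : sqd 0 p = 1) (hq : sqd 0 q = 1) (hpq : sqd p q = 1)
    (hq4 : sqd q P4 = 1) (hp6 : sqd P6 p = 1) : conf p q ∈ X 1 1 := by
  have s3 : √3 ^ 2 = (3:ℝ) := Real.sq_sqrt (by norm_num)
  have s6 : √6 ^ 2 = (6:ℝ) := Real.sq_sqrt (by norm_num)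
  have h04 : sqd 0 P4 = 1 := by simp [sqd, P4]
  have h05 : sqd 0 P5 = 1 := by
    simp [sqd, P5]; nlinarith
  have h06 : sqd 0 P6 = 1 := by
    simp [sqd, P6]; nlinarith
  have h45 : sqd P4 P5 = 1 := by
    simp [sqd, P4, P5]; nlinarith
  have h46 : sqd P4 P6 = 1 := by
    simp [sqd, P4, P6]; nlinarith
  have h56 : sqd P5 P6 = 1 := by
    simp [sqd, P5, P6]; nlinarith
  have sy : ∀ p q, sqd p q = sqd q p := fun p q => by simp only [sqd]; ring
  intro i
  rw [dist_one_iff, dist_one_iff]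
  have hi : i = 0 ∨ i = 1 ∨ i = 2 ∨ i = 3 ∨ i = 4 ∨ i = 5 ∨ i = 6 := by revert i; decide
  rcases hi with rfl | rfl | rfl | rfl | rfl | rfl | rfl
  · exact ⟨hp, hq⟩
  · exact ⟨hpq, by rw [sy]; exact hp⟩
  · exact ⟨by rw [sy]; exact hq, hq4⟩
  · exact ⟨h04, h05⟩
  · exact ⟨h45, h46⟩
  · exact ⟨h56, by rw [sy]; exact h05⟩
  · exact ⟨by rw [sy]; exact h06, hp6⟩


lemma conf_cont {α : Type} [TopologicalSpace α] {f g : α → E3} (hf : Continuous f)
    (hg : Continuous g) : Continuous (fun a => conf (f a) (g a)) := by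
  refine continuous_pi fun i => ?_
  have hi : i = 0 ∨ i = 1 ∨ i = 2 ∨ i = 3 ∨ i = 4 ∨ i = 5 ∨ i = 6 := by revert i; decide
  rcases hi with rfl | rfl | rfl | rfl | rfl | rfl | rfl
  · exact continuous_const
  · exact hf
  · exact hg
  · exact continuous_const
  · exact continuous_const
  · exact continuous_const
  · exact continuous_const

/-- The circle of possible positions of the vertex `x₂`. -/
def gg (θ : ℝ) : E3 := !₂[1/2, √3/2 * Real.cos θ, √3/2 * Real.sin θ]
/-- The circle of possible positions of the vertex `x₁` when `x₂ = P6`. -/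
def hh (θ : ℝ) : E3 := !₂[1/4 + 3/4 * Real.cos θ, √3/4 - √3/4 * Real.cos θ, √3/2 * Real.sin θ]
/-- The generic position of the vertex `x₁`, when `x₂ = gg θ`. -/
def kk (θ : ℝ) : E3 := !₂[4/(5 + 3 * Real.cos θ) - 1,
  4/(5 + 3 * Real.cos θ) * (√3/2 * (1 + Real.cos θ)),
  4/(5 + 3 * Real.cos θ) * (√3/2 * Real.sin θ)]

lemma den_pos (θ : ℝ) : 0 < 5 + 3 * Real.cos θ := by
  have := Real.neg_one_le_cos θ
  linarith

lemma cont_gg : Continuous gg := by
  unfold gg
  refine (PiLp.continuous_toLp 2 _).comp (continuous_pi fun i => ?_)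
  fin_cases i
  · exact continuous_const
  · exact continuous_const.mul Real.continuous_cos
  · exact continuous_const.mul Real.continuous_sin

lemma cont_hh : Continuous hh := by
  unfold hh
  refine (PiLp.continuous_toLp 2 _).comp (continuous_pi fun i => ?_)
  fin_cases i
  · exact continuous_const.add (continuous_const.mul Real.continuous_cos)
  · exact continuous_const.sub (continuous_const.mul Real.continuous_cos)
  · exact continuous_const.mul Real.continuous_sin

lemma cont_kk : Continuous kk := by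
  have hd : Continuous (fun θ : ℝ => 4/(5 + 3 * Real.cos θ)) :=
    continuous_const.div (continuous_const.add (continuous_const.mul Real.continuous_cos))
      (fun θ => (den_pos θ).ne')
  unfold kk
  refine (PiLp.continuous_toLp 2 _).comp (continuous_pi fun i => ?_)
  fin_cases i
  · exact hd.sub continuous_const
  · exact hd.mul (continuous_const.mul (continuous_const.add Real.continuous_cos))
  · exact hd.mul (continuous_const.mul Real.continuous_sin)

lemma s3 : √3 ^ 2 = (3:ℝ) := Real.sq_sqrt (by norm_num)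

lemma memA (θ : ℝ) : conf P4 (gg θ) ∈ X 1 1 := by
  have cs := Real.cos_sq_add_sin_sq θ
  have h3 := s3
  apply conf_mem
  · simp [sqd, P4]
  · simp [sqd, gg]; linear_combination (3/4)*cs + (1/4)*(Real.cos θ^2 + Real.sin θ^2)*h3
  · simp [sqd, gg, P4]; linear_combination (3/4)*cs + (1/4)*(Real.cos θ^2 + Real.sin θ^2)*h3
  · simp [sqd, gg, P4]; linear_combination (3/4)*cs + (1/4)*(Real.cos θ^2 + Real.sin θ^2)*h3
  · simp [sqd, P4, P6]; linear_combination (1/4)*h3

lemma memB (θ : ℝ) : conf (hh θ) P6 ∈ X 1 1 := by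
  have cs := Real.cos_sq_add_sin_sq θ
  have h3 := s3
  apply conf_mem
  · simp [sqd, hh]
    linear_combination (3/4)*cs + (1/16*(1-Real.cos θ)^2 + 1/4*Real.sin θ^2)*h3
  · simp [sqd, P6]; linear_combination (1/4)*h3
  · simp [sqd, hh, P6]
    linear_combination (3/4)*cs + (1/16*(1+Real.cos θ)^2 + 1/4*Real.sin θ^2)*h3
  · simp [sqd, P4, P6]; linear_combination (1/4)*h3
  · simp [sqd, hh, P6]
    linear_combination (3/4)*cs + (1/16*(1+Real.cos θ)^2 + 1/4*Real.sin θ^2)*h3

lemma memC (θ : ℝ) : conf (kk θ) (gg θ) ∈ X 1 1 := by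
  have cs := Real.cos_sq_add_sin_sq θ
  have h3 := s3
  have hd := den_pos θ
  have hq : (5 + 3 * Real.cos θ) * (4/(5 + 3 * Real.cos θ)) = 4 := by field_simp
  apply conf_mem
  · simp only [sqd, kk, PiLp.zero_apply, PiLp.toLp_apply, Matrix.cons_val_zero,
      Matrix.cons_val_one, Matrix.cons_val]
    generalize 4/(5 + 3 * Real.cos θ) = q at *
    generalize Real.cos θ = C at *
    generalize Real.sin θ = S at *
    linear_combination (q/2)*hq + (3/4)*q^2*cs + (q^2*((1+C)^2+S^2)/4)*h3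
  · simp [sqd, gg]; linear_combination (3/4)*cs + (1/4)*(Real.cos θ^2 + Real.sin θ^2)*h3
  · simp only [sqd, kk, gg, PiLp.zero_apply, PiLp.toLp_apply, Matrix.cons_val_zero,
      Matrix.cons_val_one, Matrix.cons_val]
    generalize 4/(5 + 3 * Real.cos θ) = q at *
    generalize Real.cos θ = C at *
    generalize Real.sin θ = S at *
    linear_combination (q/2-1/2)*hq + (3/4)*(1-q)^2*cs + (((C-q*(1+C))^2+S^2*(1-q)^2)/4)*h3
  · simp [sqd, gg, P4]; linear_combination (3/4)*cs + (1/4)*(Real.cos θ^2 + Real.sin θ^2)*h3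
  · simp only [sqd, kk, P6, PiLp.zero_apply, PiLp.toLp_apply, Matrix.cons_val_zero,
      Matrix.cons_val_one, Matrix.cons_val]
    generalize 4/(5 + 3 * Real.cos θ) = q at *
    generalize Real.cos θ = C at *
    generalize Real.sin θ = S at *
    linear_combination (q/2-1/2)*hq + (3/4)*q^2*cs + (((1-q*(1+C))^2+q^2*S^2)/4)*h3

/-- The base configuration. -/
def base : X 1 1 := ⟨conf P4 P6, by
  have h := memB 0
  have e : hh 0 = P4 := by
    unfold hh P4
    congr 1
    ext i; fin_cases i <;> simp <;> norm_num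
  rwa [e] at h⟩

lemma gg_zero : gg 0 = P6 := by
  unfold gg P6
  congr 1
  ext i; fin_cases i <;> simp

lemma hh_zero : hh 0 = P4 := by
  unfold hh P4
  congr 1
  ext i; fin_cases i <;> simp <;> norm_num

lemma kk_pi : kk Real.pi = P4 := by
  unfold kk P4
  congr 1
  ext i; fin_cases i <;> simp <;> norm_num

lemma joined_of_cont {f : ℝ → ZMod 7 → E3} (hf : Continuous f) (hm : ∀ t, f t ∈ X 1 1) (s t : ℝ) :
    Joined (⟨f s, hm s⟩ : X 1 1) ⟨f t, hm t⟩ := by
  have h : Joined s t := PathConnectedSpace.joined s t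
  have hc : Continuous (fun t => (⟨f t, hm t⟩ : X 1 1)) := hf.subtype_mk hm
  exact h.map hc

lemma joinA (θ : ℝ) : Joined (⟨conf P4 (gg θ), memA θ⟩ : X 1 1) base := by
  have h := joined_of_cont (conf_cont continuous_const cont_gg) memA θ 0
  have e : (⟨conf P4 (gg 0), memA 0⟩ : X 1 1) = base := by
    apply Subtype.ext; show conf P4 (gg 0) = conf P4 P6; rw [gg_zero]
  rwa [e] at h

lemma joinB (θ : ℝ) : Joined (⟨conf (hh θ) P6, memB θ⟩ : X 1 1) base := by
  have h := joined_of_cont (conf_cont cont_hh continuous_const) memB θ 0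
  have e : (⟨conf (hh 0) P6, memB 0⟩ : X 1 1) = base := by
    apply Subtype.ext; show conf (hh 0) P6 = conf P4 P6; rw [hh_zero]
  rwa [e] at h

lemma joinC (θ : ℝ) : Joined (⟨conf (kk θ) (gg θ), memC θ⟩ : X 1 1) base := by
  have h := joined_of_cont (conf_cont cont_kk cont_gg) memC θ Real.pi
  have e : (⟨conf (kk Real.pi) (gg Real.pi), memC Real.pi⟩ : X 1 1)
      = ⟨conf P4 (gg Real.pi), memA Real.pi⟩ := by
    apply Subtype.ext; show conf (kk Real.pi) (gg Real.pi) = conf P4 (gg Real.pi); rw [kk_pi]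
  rw [e] at h
  exact h.trans (joinA _)

lemma exists_angle {x y : ℝ} (h : x^2 + y^2 = 1) : ∃ θ : ℝ, x = Real.cos θ ∧ y = Real.sin θ := by
  have hz : ‖(⟨x, y⟩ : ℂ)‖ = 1 := by
    rw [Complex.norm_def, Complex.normSq_mk, ← sq, ← sq, h, Real.sqrt_one]
  refine ⟨Complex.arg ⟨x, y⟩, ?_, ?_⟩
  · have := Complex.norm_mul_cos_arg (⟨x, y⟩ : ℂ)
    rw [hz, one_mul] at this; exact this.symm
  · have := Complex.norm_mul_sin_arg (⟨x, y⟩ : ℂ)
    rw [hz, one_mul] at this; exact this.symm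

lemma ext3 {p q : E3} (h0 : p 0 = q 0) (h1 : p 1 = q 1) (h2 : p 2 = q 2) : p = q := by
  ext i; fin_cases i
  · exact h0
  · exact h1
  · exact h2

lemma scal {x y z C S : ℝ} (cs : C^2 + S^2 = 1) (hC : -1 ≤ C) (hC1 : C ≠ 1)
    (hx : x = 1 - √3 * y) (hCS : C * y + S * z = y) (hz : 4 * y^2 - 2*√3 * y + z^2 = 0) :
    (x = 1 ∧ y = 0 ∧ z = 0) ∨ (x = 4/(5+3*C) - 1 ∧ y = 4/(5+3*C) * (√3/2*(1+C)) ∧
      z = 4/(5+3*C) * (√3/2*S)) := by
  have h3 := s3
  have hd : 5+3*C ≠ 0 := by linarith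
  have hS2 : S^2 = (1-C)*(1+C) := by linear_combination cs
  have e1 : S * z = (1-C) * y := by linear_combination hCS
  have e2 : (1+C) * z^2 = (1-C) * y^2 := by
    have : (1-C) * ((1+C) * z^2 - (1-C) * y^2) = 0 := by
      linear_combination (-1)*z^2*hS2 + (S * z + (1-C) * y)*e1
    rcases mul_eq_zero.mp this with h | h
    · exact absurd (by linarith) hC1
    · linarith
  have e3 : y * ((5+3*C) * y - 2*√3*(1+C)) = 0 := by
    linear_combination (1+C)*hz - e2
  rcases mul_eq_zero.mp e3 with h' | h'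
  · have hz0 : z^2 = 0 := by rw [h'] at hz; linarith
    have hz0' : z = 0 := pow_eq_zero_iff (by norm_num) |>.mp hz0
    left
    exact ⟨by rw [hx, h']; ring, h', hz0'⟩
  · right
    have hq : (5+3*C) * (4/(5+3*C)) = 4 := by field_simp
    generalize 4/(5+3*C) = q at *
    have hy : y = q * (√3/2*(1+C)) := by
      have : (5+3*C) * (y - q * (√3/2*(1+C))) = 0 := by
        linear_combination h' - (√3/2*(1+C))*hq
      rcases mul_eq_zero.mp this with h | h
      · exact absurd h hd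
      · linarith
    refine ⟨?_, hy, ?_⟩
    · rw [hx, hy]
      linear_combination (-1/2)*q*(1+C)*h3 - (1/2)*hq
    · have e4 : S * (z - q * (√3/2*S)) = 0 := by
        have : S * (q * (√3/2*S)) = (1-C) * y := by
          rw [hy]
          linear_combination (q*(√3/2))*hS2
        linear_combination e1 - this
      rcases mul_eq_zero.mp e4 with h4 | h4
      · have hCm : C = -1 := by
          have : (1-C)*(1+C) = 0 := by rw [← hS2, h4]; ring
          rcases mul_eq_zero.mp this with h5 | h5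
          · exact absurd (by linarith) hC1
          · linarith
        rw [h4]
        have h10 : y = 0 := by rw [hy, hCm]; ring
        have hz0 : z^2 = 0 := by rw [h10] at hz; linarith
        have hz0' : z = 0 := pow_eq_zero_iff (by norm_num) |>.mp hz0
        rw [hz0']; ring
      · linarith

/-- Classification of the configurations with five prescribed vertices. -/
lemma classify {p q : E3} (h : conf p q ∈ X 1 1) : Joined (⟨conf p q, h⟩ : X 1 1) base := by
  have h3 := s3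
  have hs3 : √3 ≠ (0:ℝ) := by positivity
  have h0 := h 0
  have h2 := h 2
  have h6 := h 6
  have h1 := h 1
  rw [dist_one_iff, dist_one_iff] at h0 h1 h2 h6
  have hp : sqd 0 p = 1 := h0.1
  have hq : sqd 0 q = 1 := h0.2
  have hpq : sqd p q = 1 := h1.1
  have hq4 : sqd q P4 = 1 := h2.2
  have hp6 : sqd P6 p = 1 := h6.2
  simp only [sqd, P4, P6, PiLp.zero_apply, PiLp.toLp_apply, Matrix.cons_val_zero,
      Matrix.cons_val_one, Matrix.cons_val] at hp hq hpq hq4 hp6
  have q0 : q 0 = 1/2 := by linarith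
  have q12 : (2/√3 * q 1)^2 + (2/√3 * q 2)^2 = 1 := by
    field_simp
    rw [h3]
    rw [q0] at hq
    linarith
  obtain ⟨θ, hc, hs⟩ := exists_angle q12
  have q1 : q 1 = √3/2 * Real.cos θ := by rw [← hc]; field_simp
  have q2 : q 2 = √3/2 * Real.sin θ := by rw [← hs]; field_simp
  have hqg : q = gg θ := by
    apply ext3
    · rw [q0]; simp [gg]
    · rw [q1]; simp [gg]
    · rw [q2]; simp [gg]
  have cs := Real.cos_sq_add_sin_sq θ
  have p0 : p 0 = 1 - √3 * p 1 := by
    have : (√3/2)^2 = 3/4 := by rw [div_pow, h3]; norm_num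
    nlinarith [hp, hp6, this]
  have hCS : Real.cos θ * p 1 + Real.sin θ * p 2 = p 1 := by
    have e : √3 * (Real.cos θ * p 1 + Real.sin θ * p 2 - p 1) = 0 := by
      rw [q0, q1, q2] at hpq
      have e2 : (√3/2)^2 = 3/4 := by rw [div_pow, h3]; norm_num
      linear_combination (-1)*hpq + hp + (Real.cos θ^2+Real.sin θ^2)*e2 + (3/4)*cs - p0
    rcases mul_eq_zero.mp e with h | h
    · exact absurd h hs3
    · linarith
  have hp2 : 4 * (p 1)^2 - 2*√3 * p 1 + (p 2)^2 = 0 := by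
    rw [p0] at hp
    linear_combination hp - (p 1)^2*h3
  by_cases hC1 : Real.cos θ = 1
  · -- q = P6
    have hS0 : Real.sin θ = 0 := by
      have : Real.sin θ^2 = 0 := by rw [hC1] at cs; linarith
      exact pow_eq_zero_iff (by norm_num) |>.mp this
    have hq6 : q = P6 := by
      apply ext3
      · rw [q0]; simp [P6]
      · rw [q1, hC1]; simp [P6]
      · rw [q2, hS0]; simp [P6]
    have hcirc : ((4 * p 0 - 1)/3)^2 + (2/√3 * p 2)^2 = 1 := by
      have e : (2/√3 * p 2)^2 = 4/3 * (p 2)^2 := by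
        rw [mul_pow, div_pow, h3]; ring
      rw [e, p0]
      linear_combination (4/3)*hp2 + (16/9)*(p 1)^2*h3
    obtain ⟨φ, hc', hs'⟩ := exists_angle hcirc
    have hph : p = hh φ := by
      apply ext3
      · simp [hh]; rw [← hc']; ring
      · simp [hh]; rw [← hc', p0]
        linear_combination (-1/3)*(p 1)*h3
      · simp [hh]; rw [← hs']; field_simp
    subst hph hq6
    exact joinB φ
  · rcases scal cs (Real.neg_one_le_cos θ) hC1 p0 hCS hp2 with ⟨x1, x2, x3⟩ | ⟨x1, x2, x3⟩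
    · have hp4 : p = P4 := by
        apply ext3
        · rw [x1]; simp [P4]
        · rw [x2]; simp [P4]
        · rw [x3]; simp [P4]
      subst hp4 hqg
      exact joinA θ
    · have hpk : p = kk θ := ext3 x1 x2 x3
      subst hpk hqg
      exact joinC θ


/-! ### Normalisation -/

lemma frame_apply (a b : Fin 3 → ℝ) (o p : E3) (k : Fin 3) :
    (Matrix.toEuclideanLin (frameMat a b) p + -(Matrix.toEuclideanLin (frameMat a b) o)) k
      = ![dt a (df p o), dt b (df p o), dd a b (df p o)] k := by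
  fin_cases k
  · simp [frameMat, Matrix.toLpLin_apply, Matrix.mulVec, dotProduct, Fin.sum_univ_three, dt, df]
    ring
  · simp [frameMat, Matrix.toLpLin_apply, Matrix.mulVec, dotProduct, Fin.sum_univ_three, dt, df]
    ring
  · simp [frameMat, Matrix.toLpLin_apply, Matrix.mulVec, dotProduct, Fin.sum_univ_three, dd, df]
    ring

def rigidX {c₁ c₂ : ℝ} {A : Matrix (Fin 3) (Fin 3) ℝ}
    (hA : A ∈ Matrix.specialOrthogonalGroup (Fin 3) ℝ) (b : E3) (x : X c₁ c₂) : X c₁ c₂ :=
  ⟨fun i => Matrix.toEuclideanLin A (x.1 i) + b, fun i => by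
    rw [dist_rigid hA, dist_rigid hA]; exact x.2 i⟩

def shiftX {c₁ c₂ : ℝ} (k : ZMod 7) (x : X c₁ c₂) : X c₁ c₂ :=
  ⟨fun i => x.1 (i + k), fun i => by
    have h := x.2 (i + k)
    have e1 : i + 1 + k = i + k + 1 := by ring
    have e2 : i + 2 + k = i + k + 2 := by ring
    show dist (x.1 (i + k)) (x.1 (i + 1 + k)) = c₁ ∧ dist (x.1 (i + k)) (x.1 (i + 2 + k)) = c₂
    rw [e1, e2]
    exact h⟩

def revX {c₁ c₂ : ℝ} (x : X c₁ c₂) : X c₁ c₂ :=
  ⟨fun i => x.1 (-i), fun i => by
    have h1 := x.2 (-(i+1))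
    have h2 := x.2 (-(i+2))
    rw [show -(i+1) + 1 = -i by ring] at h1
    rw [show -(i+2) + 2 = -i by ring] at h2
    exact ⟨by rw [dist_comm]; exact h1.1, by rw [dist_comm]; exact h2.2⟩⟩

/-- The class of a heptagon. -/
def cls {c₁ c₂ : ℝ} (x : X c₁ c₂) : M c₁ c₂ := Quot.mk _ x

lemma cls_rigid {c₁ c₂ : ℝ} {A : Matrix (Fin 3) (Fin 3) ℝ}
    (hA : A ∈ Matrix.specialOrthogonalGroup (Fin 3) ℝ) (b : E3) (x : X c₁ c₂) :
    cls x = cls (rigidX hA b x) := Quot.sound (Move.rigid A hA b fun _ => rfl)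

lemma cls_rev {c₁ c₂ : ℝ} (x : X c₁ c₂) : cls x = cls (revX x) :=
  Quot.sound (Move.reverse fun _ => rfl)

lemma cls_shift {c₁ c₂ : ℝ} (k : ZMod 7) (x : X c₁ c₂) : cls x = cls (shiftX k x) := by
  have key : ∀ n : ℕ, cls x = cls (shiftX (n : ZMod 7) x) := by
    intro n
    induction n with
    | zero =>
      congr 1
      apply Subtype.ext
      funext i
      show x.1 i = x.1 (i + ((0:ℕ) : ZMod 7))
      simp
    | succ n ih =>
      rw [ih]
      refine Quot.sound (Move.shift fun i => ?_)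
      show x.1 (i + ((n+1 : ℕ) : ZMod 7)) = x.1 (i + 1 + (n : ZMod 7))
      have e : i + ((n+1 : ℕ) : ZMod 7) = i + 1 + (n : ZMod 7) := by push_cast; ring
      rw [e]
  have h := key k.val
  rwa [ZMod.natCast_zmod_val] at h

lemma joined_cls {x y : X 1 1} (h : Joined x y) : Joined (cls x) (cls y) :=
  h.map continuous_quot_mk

lemma normal_form (y : X 1 1) (h03 : y.1 0 = y.1 3)
    (hpos : 0 < dd (df (y.1 4) (y.1 0)) (df (y.1 6) (y.1 0)) (df (y.1 5) (y.1 0))) :
    Joined (cls y) (cls base) := by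
  have h3 := s3
  have hs3 : √3 ≠ (0:ℝ) := by positivity
  have hy := y.2
  have e3 := hy 3
  have e4 := hy 4
  have e5 := hy 5
  have e6 := hy 6
  rw [dist_one_iff, dist_one_iff] at e3 e4 e5 e6
  have h04 : sqd (y.1 0) (y.1 4) = 1 := by rw [h03]; exact e3.1
  have h05 : sqd (y.1 0) (y.1 5) = 1 := by rw [h03]; exact e3.2
  have h45 : sqd (y.1 4) (y.1 5) = 1 := e4.1
  have h46 : sqd (y.1 4) (y.1 6) = 1 := e4.2
  have h56 : sqd (y.1 5) (y.1 6) = 1 := e5.1
  have h60 : sqd (y.1 6) (y.1 0) = 1 := e6.1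
  have h40 : sqd (y.1 4) (y.1 0) = 1 := by rw [sqd_symm]; exact h04
  have h50 : sqd (y.1 5) (y.1 0) = 1 := by rw [sqd_symm]; exact h05
  have h65 : sqd (y.1 6) (y.1 5) = 1 := by rw [sqd_symm]; exact h56
  have z : ∀ p : E3, sqd p p = 0 := fun p => by simp [sqd]
  set a := df (y.1 4) (y.1 0) with ha
  set v := df (y.1 6) (y.1 0) with hv
  set u := df (y.1 5) (y.1 0) with hu
  have aa : dt a a = 1 := by rw [ha, dt_df, h40, z]; norm_num
  have vv : dt v v = 1 := by rw [hv, dt_df, h60, z]; norm_num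
  have uu : dt u u = 1 := by rw [hu, dt_df, h50, z]; norm_num
  have av : dt a v = 1/2 := by rw [ha, hv, dt_df, h40, h60, h46]; norm_num
  have au : dt a u = 1/2 := by rw [ha, hu, dt_df, h40, h50, h45]; norm_num
  have vu : dt v u = 1/2 := by rw [hv, hu, dt_df, h60, h50, h65]; norm_num
  have va : dt v a = 1/2 := by rw [← av]; simp only [dt]; ring
  have ua : dt u a = 1/2 := by rw [← au]; simp only [dt]; ring
  have uv : dt u v = 1/2 := by rw [← vu]; simp only [dt]; ring
  have hD : (dd a v u)^2 = 1/2 := by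
    have g := gram3 a v u a v u
    rw [aa, vv, uu, av, au, vu, va, ua, uv] at g
    linear_combination g
  have hD' : dd a v u = √2/2 := by
    have h2 : √2 ^ 2 = (2:ℝ) := Real.sq_sqrt (by norm_num)
    have h2' : (0:ℝ) < √2 := by positivity
    have : (dd a v u - √2/2) * (dd a v u + √2/2) = 0 := by
      linear_combination hD - (1/4)*h2
    rcases mul_eq_zero.mp this with h | h
    · linarith
    · linarith
  -- the frame
  set f : Fin 3 → ℝ := fun k => (2 * v k - a k)/√3 with hf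
  have i3 : (1/√3)^2 = (1:ℝ)/3 := by rw [div_pow, h3]; norm_num
  have ff : dt f f = 1 := by
    have : dt f f = (1/√3)^2 * (4 * dt v v - 4 * dt a v + dt a a) := by
      simp only [dt, hf]; ring
    rw [this, i3, vv, av, aa]; norm_num
  have af : dt a f = 0 := by
    have : dt a f = (1/√3) * (2 * dt a v - dt a a) := by
      simp only [dt, hf]; ring
    rw [this, av, aa]; norm_num
  have hA := frameMat_mem aa ff af
  rw [cls_rigid hA (-(Matrix.toEuclideanLin (frameMat a f) (y.1 0))) y]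
  set w := rigidX hA (-(Matrix.toEuclideanLin (frameMat a f) (y.1 0))) y with hw
  have hwi : ∀ i k, w.1 i k = ![dt a (df (y.1 i) (y.1 0)), dt f (df (y.1 i) (y.1 0)),
      dd a f (df (y.1 i) (y.1 0))] k := fun i k => frame_apply a f (y.1 0) (y.1 i) k
  have w0 : w.1 0 = 0 := by
    apply ext3
    · rw [hwi]; simp [dt, df]
    · rw [hwi]; simp [dt, df]
    · rw [hwi]; simp [dd, df]
  have w3 : w.1 3 = 0 := by
    apply ext3
    · rw [hwi, ← h03]; simp [dt, df]
    · rw [hwi, ← h03]; simp [dt, df]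
    · rw [hwi, ← h03]; simp [dd, df]
  have w4 : w.1 4 = P4 := by
    apply ext3
    · rw [hwi]; show dt a a = 1; exact aa
    · rw [hwi]; show dt f a = 0
      rw [← af]; simp only [dt]; ring
    · rw [hwi]; show dd a f a = 0
      simp only [dd]; ring
  have w6 : w.1 6 = P6 := by
    apply ext3
    · rw [hwi]; show dt a v = 1/2; exact av
    · rw [hwi]; show dt f v = √3/2
      have : dt f v = (1/√3) * (2 * dt v v - dt a v) := by simp only [dt, hf]; ring
      rw [this, vv, av]; field_simp; rw [h3]; norm_num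
    · rw [hwi]; show dd a f v = 0
      simp only [dd, hf]; ring
  have w5 : w.1 5 = P5 := by
    apply ext3
    · rw [hwi]; show dt a u = 1/2; exact au
    · rw [hwi]; show dt f u = √3/6
      have : dt f u = (1/√3) * (2 * dt v u - dt a u) := by simp only [dt, hf]; ring
      rw [this, vu, au]; field_simp; rw [h3]; norm_num
    · rw [hwi]; show dd a f u = √6/3
      have : dd a f u = (1/√3) * (2 * dd a v u) := by simp only [dd, hf]; ring
      rw [this, hD']
      have h6 : √6 = √2 * √3 := by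
        rw [← Real.sqrt_mul (by norm_num)]; norm_num
      rw [h6]; field_simp; rw [h3]
  have hconf : w.1 = conf (w.1 1) (w.1 2) := by
    funext i
    have hi : i = 0 ∨ i = 1 ∨ i = 2 ∨ i = 3 ∨ i = 4 ∨ i = 5 ∨ i = 6 := by revert i; decide
    rcases hi with rfl | rfl | rfl | rfl | rfl | rfl | rfl
    · exact w0
    · rfl
    · rfl
    · exact w3
    · exact w4
    · exact w5
    · exact w6
  have hmem : conf (w.1 1) (w.1 2) ∈ X 1 1 := by rw [← hconf]; exact w.2
  have hweq : w = ⟨conf (w.1 1) (w.1 2), hmem⟩ := Subtype.ext hconf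
  rw [hweq]
  exact joined_cls (classify hmem)

lemma joined_base (x : X 1 1) : Joined (cls x) (cls base) := by
  obtain ⟨i, hi⟩ := exists_coincidence x.1 (fun i => (dist_one_iff _ _).mp (x.2 i).1)
    (fun i => (dist_one_iff _ _).mp (x.2 i).2)
  have hxi : x.1 i = x.1 (i+3) := by
    rw [← dist_sq] at hi
    exact dist_eq_zero.mp (pow_eq_zero_iff (by norm_num) |>.mp hi)
  rw [cls_shift i x]
  set y := shiftX i x with hy
  have h03 : y.1 0 = y.1 3 := by
    show x.1 (0 + i) = x.1 (3 + i)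
    rw [zero_add, add_comm 3 i]; exact hxi
  have hne : dd (df (y.1 4) (y.1 0)) (df (y.1 6) (y.1 0)) (df (y.1 5) (y.1 0)) ≠ 0 := by
    have hy2 := y.2
    have e3 := hy2 3
    have e4 := hy2 4
    have e5 := hy2 5
    have e6 := hy2 6
    rw [dist_one_iff, dist_one_iff] at e3 e4 e5 e6
    have h04 : sqd (y.1 0) (y.1 4) = 1 := by rw [h03]; exact e3.1
    have h05 : sqd (y.1 0) (y.1 5) = 1 := by rw [h03]; exact e3.2
    have h45 : sqd (y.1 4) (y.1 5) = 1 := e4.1
    have h46 : sqd (y.1 4) (y.1 6) = 1 := e4.2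
    have h56 : sqd (y.1 5) (y.1 6) = 1 := e5.1
    have h60 : sqd (y.1 6) (y.1 0) = 1 := e6.1
    have z : ∀ p : E3, sqd p p = 0 := fun p => by simp [sqd]
    intro h
    have g := gram3 (df (y.1 4) (y.1 0)) (df (y.1 6) (y.1 0)) (df (y.1 5) (y.1 0))
      (df (y.1 4) (y.1 0)) (df (y.1 6) (y.1 0)) (df (y.1 5) (y.1 0))
    rw [h] at g
    simp only [dt_df] at g
    rw [sqd_symm (y.1 4) (y.1 0), sqd_symm (y.1 5) (y.1 0), sqd_symm (y.1 6) (y.1 5),
      sqd_symm (y.1 6) (y.1 4), sqd_symm (y.1 5) (y.1 4), h04, h05, h45, h46, h56, h60] at g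
    simp only [z] at g
    norm_num at g
  rcases lt_or_gt_of_ne hne with hneg | hpos
  · rw [cls_rev y, cls_shift 4 (revX y)]
    refine normal_form _ ?_ ?_
    · show y.1 (-(0+4)) = y.1 (-(3+4))
      have e1 : (-(0+4) : ZMod 7) = 3 := by decide
      have e2 : (-(3+4) : ZMod 7) = 0 := by decide
      rw [e1, e2]; exact h03.symm
    · show 0 < dd (df (y.1 (-(4+4))) (y.1 (-(0+4)))) (df (y.1 (-(6+4))) (y.1 (-(0+4))))
        (df (y.1 (-(5+4))) (y.1 (-(0+4))))
      have e1 : (-(0+4) : ZMod 7) = 3 := by decide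
      have e2 : (-(4+4) : ZMod 7) = 6 := by decide
      have e3 : (-(6+4) : ZMod 7) = 4 := by decide
      have e4 : (-(5+4) : ZMod 7) = 5 := by decide
      rw [e1, e2, e3, e4, ← h03]
      have : dd (df (y.1 6) (y.1 0)) (df (y.1 4) (y.1 0)) (df (y.1 5) (y.1 0))
        = - dd (df (y.1 4) (y.1 0)) (df (y.1 6) (y.1 0)) (df (y.1 5) (y.1 0)) := by
        simp only [dd]; ring
      rw [this]; linarith
  · exact normal_form y h03 hpos

lemma pathConnected_one : PathConnectedSpace (M 1 1) := by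
  refine ⟨⟨cls base⟩, ?_⟩
  intro p q
  obtain ⟨x, rfl⟩ := Quot.exists_rep p
  obtain ⟨y, rfl⟩ := Quot.exists_rep q
  exact (joined_base x).trans (joined_base y).symm

/-! ### Scaling and the main theorem -/

lemma scale_mem {c : ℝ} (hc : 0 < c) {r₁ r₂ : ℝ} {x : ZMod 7 → E3} (hx : x ∈ X r₁ r₂) :
    (fun i => c • x i) ∈ X (c * r₁) (c * r₂) := by
  intro i
  have h := hx i
  rw [dist_smul₀, dist_smul₀, Real.norm_eq_abs, abs_of_pos hc, h.1, h.2]
  exact ⟨rfl, rfl⟩

/-- Scaling by `c`. -/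
def scaleX {c : ℝ} (hc : 0 < c) (x : X 1 1) : X c c :=
  ⟨fun i => c • x.1 i, by
    have h := scale_mem hc x.2
    rwa [mul_one] at h⟩

lemma scale_cont {c : ℝ} (hc : 0 < c) : Continuous (scaleX hc) := by
  refine Continuous.subtype_mk ?_ _
  refine continuous_pi fun i => ?_
  exact ((continuous_apply i).comp continuous_subtype_val).const_smul c

lemma scale_move {c : ℝ} (hc : 0 < c) (x y : X 1 1) (h : Move x y) :
    Move (scaleX hc x) (scaleX hc y) := by
  rcases h with ⟨A, hA, b, h⟩ | h | h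
  · refine Move.rigid A hA (c • b) fun i => ?_
    show c • y.1 i = Matrix.toEuclideanLin A (c • x.1 i) + c • b
    rw [h i, smul_add, map_smul]
  · refine Move.shift fun i => ?_
    show c • y.1 i = c • x.1 (i + 1)
    rw [h i]
  · refine Move.reverse fun i => ?_
    show c • y.1 i = c • x.1 (-i)
    rw [h i]

lemma pathConnected_all {c : ℝ} (hc : 0 < c) : PathConnectedSpace (M c c) := by
  have := pathConnected_one
  let F : M 1 1 → M c c := Quot.map (scaleX hc) (scale_move hc)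
  have hF : Continuous F := by
    refine continuous_quot_lift _ ?_
    exact continuous_quot_mk.comp (scale_cont hc)
  have hs : Function.Surjective F := by
    intro q
    obtain ⟨z, rfl⟩ := Quot.exists_rep q
    have hz := scale_mem (inv_pos.mpr hc) z.2
    rw [inv_mul_cancel₀ hc.ne'] at hz
    refine ⟨cls ⟨_, hz⟩, ?_⟩
    show Quot.mk _ (scaleX hc ⟨_, hz⟩) = Quot.mk _ z
    congr 1
    apply Subtype.ext
    funext i
    show c • (c⁻¹ • z.1 i) = z.1 i
    rw [smul_smul, mul_inv_cancel₀ hc.ne', one_smul]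
  exact hs.pathConnectedSpace hF

lemma base_not_coplanar {c : ℝ} (hc : 0 < c) :
    ¬ Coplanar ℝ (Set.range (fun i => c • base.1 i)) := by
  intro hcop
  have hs3 : √3 ≠ (0:ℝ) := by positivity
  have hs6 : √6 ≠ (0:ℝ) := by positivity
  have hc0 : c ≠ 0 := hc.ne'
  have b0 : base.1 0 = 0 := rfl
  have b4 : base.1 4 = P4 := rfl
  have b5 : base.1 5 = P5 := rfl
  have b6 : base.1 6 = P6 := rfl
  have m4 : c • P4 ∈ vectorSpan ℝ (Set.range (fun i => c • base.1 i)) := by
    have h := vsub_mem_vectorSpan ℝ (Set.mem_range_self (f := fun i => c • base.1 i) 4)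
      (Set.mem_range_self (f := fun i => c • base.1 i) 0)
    simpa [b0, b4] using h
  have m5 : c • P5 ∈ vectorSpan ℝ (Set.range (fun i => c • base.1 i)) := by
    have h := vsub_mem_vectorSpan ℝ (Set.mem_range_self (f := fun i => c • base.1 i) 5)
      (Set.mem_range_self (f := fun i => c • base.1 i) 0)
    simpa [b0, b5] using h
  have m6 : c • P6 ∈ vectorSpan ℝ (Set.range (fun i => c • base.1 i)) := by
    have h := vsub_mem_vectorSpan ℝ (Set.mem_range_self (f := fun i => c • base.1 i) 6)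
      (Set.mem_range_self (f := fun i => c • base.1 i) 0)
    simpa [b0, b6] using h
  have htop : vectorSpan ℝ (Set.range (fun i => c • base.1 i)) = ⊤ := by
    rw [eq_top_iff]
    intro v _
    have hv : v = ((v 0 - (v 1 - (v 2 / (c*(√6/3)))*(c*(√3/6)))/(c*(√3/2))*(c/2)
          - (v 2 / (c*(√6/3)))*(c/2))/c) • (c • P4)
        + ((v 1 - (v 2 / (c*(√6/3)))*(c*(√3/6)))/(c*(√3/2))) • (c • P6)
        + (v 2 / (c*(√6/3))) • (c • P5) := by
      apply ext3
      · simp [P4, P5, P6]; field_simp; ring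
      · simp [P4, P5, P6]; field_simp; ring
      · simp [P4, P5, P6]; field_simp
    rw [hv]
    exact Submodule.add_mem _ (Submodule.add_mem _ (Submodule.smul_mem _ _ m4)
      (Submodule.smul_mem _ _ m6)) (Submodule.smul_mem _ _ m5)
  unfold Coplanar at hcop
  rw [htop, rank_top] at hcop
  have hr : Module.rank ℝ E3 = 3 := by
    rw [← Module.finrank_eq_rank]; simp [E3]
  rw [hr] at hcop
  norm_num at hcop

/-- **Main theorem.**  For every `c > 0` the pair `(c,c)` is admissible and the space `M(c,c)` of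
2-equilateral heptagons up to rigid motion and relabeling is path connected. -/
theorem result (c : ℝ) (hc : 0 < c) : Admissible c c ∧ PathConnectedSpace (M c c) :=
  ⟨⟨hc, hc, _, (scaleX hc base).2, base_not_coplanar hc⟩, pathConnected_all hc⟩

end

end Pool.Agent.Results.MP_3c8ca4_co.PathConnected
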